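import Pool.Agent.H58.BL.Stm3
import Pool.Agent.H695.BL.Dec

/-!
# LOCC: classes modulo the centre, complex case
-/

set_option autoImplicit false

open Finset Module

namespace Pool.Agent.H548.BL

open Pool.Agent.H58 Pool.Agent.H58.BL

/-- a complex structure lives in even dimension -/
lemma even_finrank {n : ℕ} {V : Submodule ℝ (EuclideanSpace ℝ (Fin n))}
    {J : EuclideanSpace ℝ (Fin n) →ₗ[ℝ] EuclideanSpace ℝ (Fin n)}
    (h1 : ∀ v ∈ V, J v ∈ V) (h2 : ∀ v ∈ V, J (J v) = -v) : ∃ e : ℕ, finrank ℝ V = 2 * e := by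
  have h3 : (J.restrict h1) * (J.restrict h1) = (-1 : ℝ) • (LinearMap.id : V →ₗ[ℝ] V) := by
    ext v
    have h4 := h2 v v.2
    simp only [Module.End.mul_apply, LinearMap.coe_restrict_apply, LinearMap.smul_apply,
      LinearMap.id_apply, neg_smul, one_smul, Submodule.coe_neg]
    rw [h4]
  have h5 : LinearMap.det (J.restrict h1) * LinearMap.det (J.restrict h1)
      = (-1 : ℝ) ^ finrank ℝ V := by
    rw [← map_mul, h3, LinearMap.det_smul, LinearMap.det_id, mul_one]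
  rcases Nat.even_or_odd (finrank ℝ V) with h | h
  · obtain ⟨e, he⟩ := h
    exact ⟨e, by omega⟩
  · exfalso
    rw [h.neg_one_pow] at h5
    have := mul_self_nonneg (LinearMap.det (J.restrict h1))
    linarith

lemma one_mem_NV {n : ℕ} {G : Subgroup (EuclideanSpace ℝ (Fin n) ≃ₗᵢ[ℝ] EuclideanSpace ℝ (Fin n))}
    {V : Submodule ℝ (EuclideanSpace ℝ (Fin n))} : 1 ∈ NV G V :=
  ⟨G.one_mem, fun _ _ _ _ => rfl⟩

lemma inv_mem_NV {n : ℕ} {G : Subgroup (EuclideanSpace ℝ (Fin n) ≃ₗᵢ[ℝ] EuclideanSpace ℝ (Fin n))}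
    {V : Submodule ℝ (EuclideanSpace ℝ (Fin n))} (hV : AG.Inv G V)
    {g : EuclideanSpace ℝ (Fin n) ≃ₗᵢ[ℝ] EuclideanSpace ℝ (Fin n)} (hg : g ∈ NV G V) :
    g⁻¹ ∈ NV G V := by
  refine ⟨G.inv_mem hg.1, ?_⟩
  intro h hh v hv
  have h1 : g⁻¹ v ∈ V := hV _ (G.inv_mem hg.1) v hv
  have h2 := hg.2 h hh _ h1
  have h3 : g (g⁻¹ v) = v := g.apply_symm_apply v
  rw [h3] at h2
  rw [← h2]
  exact g.symm_apply_apply _

theorem t_locc : S_LOCC := by
  classical
  intro hB n G V J hmin hcl hJ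
  obtain ⟨hJ1, hJ2, hJ3, hJ4, hJ5⟩ := hJ
  obtain ⟨e, he⟩ := even_finrank hJ1 hJ2
  refine ⟨e, he, ?_⟩
  intro x0
  have hV := hmin.1
  have hfin : finrank ℝ V ≠ 0 := by
    rw [Ne, Submodule.finrank_eq_zero]
    exact hmin.2.1
  have he0 : 0 < e ^ 2 := by
    apply pow_pos
    omega
  -- a largest set of pairwise inequivalent elements
  obtain ⟨S, hS1, hS2, hSmax⟩ : ∃ S : Finset (EuclideanSpace ℝ (Fin n) ≃ₗᵢ[ℝ]
      EuclideanSpace ℝ (Fin n)), (∀ g ∈ S, g ∈ G) ∧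
      (∀ g ∈ S, ∀ h ∈ S, g ≠ h → g⁻¹ * h ∉ NV G V) ∧
      ∀ S' : Finset (EuclideanSpace ℝ (Fin n) ≃ₗᵢ[ℝ] EuclideanSpace ℝ (Fin n)),
        (∀ g ∈ S', g ∈ G) → (∀ g ∈ S', ∀ h ∈ S', g ≠ h → g⁻¹ * h ∉ NV G V) →
        S'.card ≤ S.card := by
    set A : Set ℕ := {k | ∃ S : Finset (EuclideanSpace ℝ (Fin n) ≃ₗᵢ[ℝ]
      EuclideanSpace ℝ (Fin n)), (∀ g ∈ S, g ∈ G) ∧
      (∀ g ∈ S, ∀ h ∈ S, g ≠ h → g⁻¹ * h ∉ NV G V) ∧ S.card = k} with hA
    have hne : A.Nonempty := ⟨0, ∅, by simp, by simp, by simp⟩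
    have hbd : BddAbove A := by
      refine ⟨finrank ℝ V ^ 2, ?_⟩
      rintro k ⟨S, h1, h2, h3⟩
      have := hB n G V J hmin hcl ⟨hJ1, hJ2, hJ3, hJ4, hJ5⟩ S h1 h2
      omega
    obtain ⟨S, h1, h2, h3⟩ := Nat.sSup_mem hne hbd
    refine ⟨S, h1, h2, ?_⟩
    intro S' h1' h2'
    rw [h3]
    exact le_csSup hbd ⟨S', h1', h2', rfl⟩
  have hcard : S.card ≤ e ^ 2 := by
    have := hB n G V J hmin hcl ⟨hJ1, hJ2, hJ3, hJ4, hJ5⟩ S hS1 hS2
    rw [he, mul_pow] at this
    omega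
  -- every element of `G` is equivalent to an element of `S`
  have hrep : ∀ g ∈ G, ∃ s ∈ S, s⁻¹ * g ∈ NV G V := by
    intro g hg
    by_cases hgS : g ∈ S
    · refine ⟨g, hgS, ?_⟩
      rw [inv_mul_cancel]
      exact one_mem_NV
    · by_contra hcon
      push Not at hcon
      have h1 := hSmax (insert g S) (by
        intro g' hg'
        rcases Finset.mem_insert.1 hg' with h | h
        · rw [h]; exact hg
        · exact hS1 _ h) (by
        intro a ha b hb hab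
        rcases Finset.mem_insert.1 ha with h | h
        · rcases Finset.mem_insert.1 hb with h' | h'
          · exact absurd (h.trans h'.symm) hab
          · rw [h]
            intro h3
            apply hcon b h'
            have h4 := inv_mem_NV hV h3
            rwa [mul_inv_rev, inv_inv] at h4
        · rcases Finset.mem_insert.1 hb with h' | h'
          · rw [h']
            exact hcon a h
          · exact hS2 a h b h' hab)
      rw [Finset.card_insert_of_notMem hgS] at h1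
      omega
  set w := V.starProjection x0 with hw
  have hwV : w ∈ V := Submodule.starProjection_apply_mem V x0
  have hproj : ∀ g ∈ G, ∀ x, V.starProjection (g x) = g (V.starProjection x) := by
    intro g hg x
    rw [Submodule.starProjection_apply, Submodule.starProjection_apply]
    exact Pool.Agent.H695.BL.proj_comm hV g hg x
  have hnorm : ∀ a b a' b' : ℝ, inner ℝ (a • w + b • J w) (a' • w + b' • J w)
      = ‖w‖ ^ 2 * (a * a' + b * b') := by
    intro a b a' b'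
    have h1 : inner ℝ (J w) w = - inner ℝ w (J w) := hJ3 w hwV w hwV
    have h2 : inner ℝ (J w) w = inner ℝ w (J w) := real_inner_comm _ _
    have h3 : inner ℝ w (J w) = (0 : ℝ) := by linarith
    have h4 : inner ℝ (J w) (J w) = (‖w‖ ^ 2 : ℝ) := by
      rw [hJ3 w hwV (J w) (hJ1 w hwV), hJ2 w hwV, inner_neg_right, neg_neg,
        real_inner_self_eq_norm_sq]
    have h5 : inner ℝ w w = (‖w‖ ^ 2 : ℝ) := real_inner_self_eq_norm_sq w
    rw [inner_add_left, inner_add_right, inner_add_right, real_inner_smul_left,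
      real_inner_smul_left, real_inner_smul_left, real_inner_smul_left, real_inner_smul_right,
      real_inner_smul_right, real_inner_smul_right, real_inner_smul_right, h2, h3, h4, h5]
    ring
  -- the data of a point of the orbit
  have hpt : ∀ x, (∃ g ∈ G, g x0 = x) → ∃ s ∈ S, ∃ a b : ℝ, a ^ 2 + b ^ 2 = 1 ∧
      V.starProjection x = s (a • w + b • J w) := by
    rintro x ⟨g, hg, rfl⟩
    obtain ⟨s, hs, hsN⟩ := hrep g hg
    obtain ⟨a, b, hab, hv⟩ := hJ5 _ hsN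
    refine ⟨s, hs, a, b, hab, ?_⟩
    rw [hproj g hg x0, ← hv w hwV]
    have h6 : s ((s⁻¹ * g) w) = (s * (s⁻¹ * g)) w := rfl
    rw [h6, mul_inv_cancel_left]
  let f : (EuclideanSpace ℝ (Fin n) ≃ₗᵢ[ℝ] EuclideanSpace ℝ (Fin n)) → Fin (e ^ 2) := fun s =>
    if h : s ∈ S then Fin.castLE hcard (S.equivFin ⟨s, h⟩) else ⟨0, he0⟩
  have hf : ∀ s ∈ S, ∀ t ∈ S, f s = f t → s = t := by
    intro s hs t ht hst
    simp only [f, dif_pos hs, dif_pos ht] at hst
    have h1 := Fin.castLE_injective hcard hst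
    have h2 := S.equivFin.injective h1
    exact congrArg Subtype.val h2
  have hch : ∀ x, ∃ (s : EuclideanSpace ℝ (Fin n) ≃ₗᵢ[ℝ] EuclideanSpace ℝ (Fin n)) (a b : ℝ),
      (∃ g ∈ G, g x0 = x) → s ∈ S ∧ a ^ 2 + b ^ 2 = 1 ∧
        V.starProjection x = s (a • w + b • J w) := by
    intro x
    by_cases hx : ∃ g ∈ G, g x0 = x
    · obtain ⟨s, hs, a, b, hab, hP⟩ := hpt x hx
      exact ⟨s, a, b, fun _ => ⟨hs, hab, hP⟩⟩
    · exact ⟨1, 0, 0, fun h => absurd h hx⟩
  choose s a b hsab using hch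
  refine ⟨fun x => f (s x), fun x => ![a x, b x], ?_⟩
  intro g hg h hh
  obtain ⟨hs1, hab1, hP1⟩ := hsab (g x0) ⟨g, hg, rfl⟩
  obtain ⟨hs2, hab2, hP2⟩ := hsab (h x0) ⟨h, hh, rfl⟩
  refine ⟨?_, ?_⟩
  · simp only [dt, Fin.sum_univ_two, Matrix.cons_val_zero, Matrix.cons_val_one]
    rw [← hab1]
    ring
  · intro hl
    have h1 : s (g x0) = s (h x0) := hf _ hs1 _ hs2 hl
    rw [hP1, hP2, h1, (s (h x0)).inner_map_map, hnorm]
    simp only [dt, Fin.sum_univ_two, Matrix.cons_val_zero, Matrix.cons_val_one]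
    rw [hw]

end Pool.Agent.H548.BL
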